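import Pool.Agent.Helper86.AP.Goals

/-!
# Packet AP-LNK: the pairing structure
-/

set_option autoImplicit false

namespace Pool.Agent.Helper84.AP

open FreeGroup Pool.Agent.Helper35.PP Pool.Agent.Helper35.PX
open Pool.Agent.Helper86.AP

section

variable {α : Type}

lemma cw_chain {i : α} {m : ℕ} {s : Fin (m + 1) → Bool} {b : Fin (m + 1) → List (α × Bool)}
    (h : FreeGroup.IsReduced (cw i m s b)) :
    (∀ k, FreeGroup.IsReduced ((i, s k) :: b k)) ∧
      ∀ (j : ℕ) (hj : j < m), ∀ x ∈ ((i, s ⟨j, by omega⟩) :: b ⟨j, by omega⟩).getLast?,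
        x.1 = i → x.2 = s ⟨j + 1, by omega⟩ := by
  unfold cw FreeGroup.IsReduced at h
  rw [List.isChain_flatten (by simp [List.mem_ofFn])] at h
  obtain ⟨h1, h2⟩ := h
  constructor
  · intro k
    exact h1 _ (List.mem_ofFn.2 ⟨k, rfl⟩)
  · intro j hj x hx hxi
    rw [List.isChain_ofFn] at h2
    exact h2 j (by omega) x hx (i, s ⟨j + 1, by omega⟩) (by simp) hxi

lemma cw_ends {i : α} {m : ℕ} {s : Fin (m + 1) → Bool} {b : Fin (m + 1) → List (α × Bool)}
    (h : FreeGroup.IsCyclicallyReduced (cw i m s b)) (hb : b (Fin.last m) = []) :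
    s (Fin.last m) = s 0 := by
  have h1 := h.2
  have e1 : (cw i m s b).getLast? = some (i, s (Fin.last m)) := by
    unfold cw
    rw [List.ofFn_succ', List.concat_eq_append, List.flatten_append]
    simp [hb]
  have e2 : (cw i m s b).head? = some (i, s 0) := by
    unfold cw
    rw [List.ofFn_succ]
    simp
  exact h1 _ e1 _ e2 rfl

lemma no_empty {i : α} {m : ℕ} {s : Fin (m + 1) → Bool} {b : Fin (m + 1) → List (α × Bool)}
    (h : FreeGroup.IsCyclicallyReduced (cw i m s b)) (k : Fin (m + 1)) (hb : b k = []) :
    s k = s (k + 1) := by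
  by_cases hk : k = Fin.last m
  · subst hk
    rw [cw_ends h hb]
    congr 1
    exact (Fin.last_add_one m).symm
  · have hk' : k.val < m := by
      have := k.is_lt
      by_contra hc
      apply hk
      apply Fin.ext
      simp; omega
    have h2 := (cw_chain h.1).2 k.val hk' (i, s k) (by
      have : (⟨k.val, by omega⟩ : Fin (m + 1)) = k := rfl
      rw [this, hb]; simp) rfl
    simp only at h2
    rw [h2]
    congr 1
    apply Fin.ext
    rw [Fin.val_add_one_of_lt (Fin.lt_last_iff_ne_last.2 hk)]

lemma nil_of_reduced {p : List (α × Bool)} (h : FreeGroup.IsReduced (p ++ FreeGroup.invRev p)) :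
    p = [] := by
  rcases List.eq_nil_or_concat p with h0 | ⟨q, y, rfl⟩
  · exact h0
  · exfalso
    rw [List.concat_eq_append] at h
    have h1 : FreeGroup.invRev (q ++ [y]) = (y.1, !y.2) :: FreeGroup.invRev q := by
      simp [FreeGroup.invRev]
    rw [h1] at h
    unfold FreeGroup.IsReduced at h
    have h2 := List.isChain_append.1 h
    have h3 := h2.2.2 y (by simp) (y.1, !y.2) (by simp) rfl
    simp at h3

end

theorem tLNK : S_LNK := by
  intro hT α _ _ i A B a d m s b ha hd hm hbi hcw htr
  have hred : ∀ k, FreeGroup.IsReduced (b k) := fun k =>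
    ((cw_chain hcw.1).1 k).tail
  have key : ∀ k : Fin (m + 1), ∃ p c x q z v' : List (α × Bool),
      (if s k then a else d).toWord = p ++ c ++ x ∧
      (if s (k + 1) then d else a).toWord = q ++ c ++ z ∧
      ((if s k then a else d)⁻¹ * FreeGroup.mk (b k) * (if s (k + 1) then d else a)).toWord =
        FreeGroup.invRev x ++ v' ++ z ∧
      b k = p ++ v' ++ FreeGroup.invRev q ∧ (c = [] ∨ v' = []) := by
    intro k
    apply hT α _ _ _ _ FreeGroup.isReduced_toWord FreeGroup.isReduced_toWord
      FreeGroup.isReduced_toWord (hred k)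
    rw [FreeGroup.mk_toWord, FreeGroup.mk_toWord, FreeGroup.mk_toWord]
    group
  choose p c x q z v' hX hY hv hb hcv using key
  have hnd : ∀ k, s (k + 1) = !(s k) → c k ≠ [] → (p k).length ≠ (q k).length := by
    intro k hs hc hl
    have hv0 : v' k = [] := (hcv k).resolve_left hc
    have e1 := hX k
    have e2 := hY k
    have e3 : (if s (k + 1) then d else a) = (if s k then a else d) := by
      rw [hs]; cases s k <;> simp
    rw [e3, e1, List.append_assoc, List.append_assoc] at e2
    have e4 := (List.append_inj e2 hl).1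
    have e5 := hb k
    rw [hv0, ← e4, List.append_nil] at e5
    have e6 := hred k
    rw [e5] at e6
    have e7 := nil_of_reduced e6
    rw [e7] at e5
    have e8 := no_empty hcw k (by rw [e5]; simp)
    rw [hs] at e8
    cases h : s k <;> simp [h] at e8
  have hne : ∀ k : Fin (m + 1), k + 1 ≠ k := by
    intro k hk
    have h1 : (1 : Fin (m + 1)) = 0 := by simpa using hk
    have h2 := congrArg Fin.val h1
    simp at h2
    omega
  refine ⟨{ P := fun e => if e.2 = s e.1 then p e.1 else q (e.1 - 1)
            C := fun e => if e.2 = s e.1 then c e.1 else c (e.1 - 1)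
            X := fun e => if e.2 = s e.1 then x e.1 else z (e.1 - 1)
            pi := fun e => if e.2 = s e.1 then (e.1 + 1, !(s (e.1 + 1))) else (e.1 - 1, s (e.1 - 1))
            invol := ?_
            nofix := ?_
            dec := ?_
            cc := ?_
            hx := ?_
            nd := ?_ }, v', ?_⟩
  · rintro ⟨k, t⟩
    by_cases ht : t = s k
    · simp [ht]
    · have h1 : t = !(s k) := by
        cases t <;> cases h : s k <;> simp_all
      simp [ht, h1]
  · rintro ⟨k, t⟩
    by_cases ht : t = s k
    · simp only [ht, if_true]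
      intro h
      exact hne k (congrArg Prod.fst h)
    · simp only [ht, if_false]
      intro h
      have h1 := congrArg Prod.fst h
      simp only at h1
      have h2 := hne (k - 1)
      rw [sub_add_cancel] at h2
      exact h2 h1.symm
  · rintro ⟨k, t⟩
    by_cases ht : t = s k
    · simp only [ht, if_true]
      rw [← hX k]
      cases s k <;> simp
    · have h1 : t = !(s k) := by
        cases t <;> cases h : s k <;> simp_all
      simp only [ht, if_false]
      have h2 := hY (k - 1)
      rw [sub_add_cancel] at h2
      rw [← h2, h1]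
      cases s k <;> simp
  · rintro ⟨k, t⟩
    by_cases ht : t = s k
    · simp [ht]
    · have h1 : t = !(s k) := by
        cases t <;> cases h : s k <;> simp_all
      simp [ht]
  · rintro ⟨k, t⟩
    have hL : ∀ k, FreeGroup.invRev (x k) ∈ Lang (Zi i) A B ∧ z k ∈ Lang (Zi i) A B := by
      intro k
      have h1 := htr k
      rw [hv k] at h1
      unfold Lang Ch at h1 ⊢
      obtain ⟨h2, h3⟩ := h1
      refine ⟨⟨fun y hy => h2 y (by simp [hy]), ?_⟩, ⟨fun y hy => h2 y (by simp [hy]), ?_⟩⟩
      · exact ((List.isChain_append.1 (List.isChain_append.1 h3).1).1)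
      · exact (List.isChain_append.1 h3).2.1
    by_cases ht : t = s k
    · simp only [ht, if_true]
      exact Or.inr (hL k).1
    · simp only [ht, if_false]
      exact Or.inl (hL (k - 1)).2
  · rintro ⟨k, t⟩
    by_cases ht : t = s k
    · simp only [ht, if_true]
      intro h1 h2
      have h3 : s (k + 1) = !(s k) := by rw [← h1]; simp
      have h4 := hnd k h3 h2
      have h5 : ¬ (!(s (k + 1))) = s (k + 1) := by cases s (k + 1) <;> simp
      simp only [h5, if_false, add_sub_cancel_right]
      exact h4
    · have h1 : t = !(s k) := by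
        cases t <;> cases h : s k <;> simp_all
      simp only [ht, if_false, if_true]
      intro h2 h3
      have h4 := hnd (k - 1) (by rw [sub_add_cancel, h2, h1]; simp) h3
      exact h4.symm
  · intro k
    have h5 : ¬ (!(s (k + 1))) = s (k + 1) := by cases s (k + 1) <;> simp
    refine ⟨?_, ?_⟩
    · have h1 := htr k
      rw [hv k] at h1
      unfold Lang Ch at h1 ⊢
      obtain ⟨h2, h3⟩ := h1
      exact ⟨fun y hy => h2 y (by simp [hy]),
        (List.isChain_append.1 (List.isChain_append.1 h3).1).2.1⟩
    · simp only [if_true, h5, if_false, add_sub_cancel_right]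
      exact hb k

end Pool.Agent.Helper84.AP
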